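import Mathlib

set_option autoImplicit false
set_option linter.unusedSimpArgs false
set_option linter.unusedVariables false

/-! Counter programs whose decrements may fail, and loop programs. -/

namespace Pool.Agent.H.MP_4c145a_lc

open Relation Multiset Sum Function

inductive Lp : Type
  | inc (r : ℕ) | clr (r : ℕ) | seq (p q : Lp) | loop (r : ℕ) (p : Lp)

def ev : Lp → Multiset ℕ → Multiset ℕ
  | .inc r, s => s + {r}
  | .clr r, s => s.filter (· ≠ r)
  | .seq p q, s => ev q (ev p s)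
  | .loop r p, s => (ev p)^[s.count r] s

def cpy (x y : ℕ) : Lp := .seq (.clr y) (.loop x (.inc y))

theorem ev_cpy {x y : ℕ} (h : x ≠ y) (s : Multiset ℕ) (r : ℕ) :
    (ev (cpy x y) s).count r = if r = y then s.count x else s.count r := by
  have : ∀ n t, (ev (.inc y))^[n] t = t + n • {y} := fun n => by
    induction n with
    | zero => simp
    | succ n ih => intro t; rw [iterate_succ_apply', ih, succ_nsmul, ev, add_assoc]
  simp only [cpy, ev, this, count_add, count_nsmul, count_filter, count_singleton]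
  split_ifs <;> simp_all

theorem prim_lp {n : ℕ} {f : List.Vector ℕ n → ℕ} (hf : Nat.Primrec' f) :
    ∀ (inp : Fin n → ℕ) (o N : ℕ), (∀ i, inp i < N) → o < N → (∀ i, inp i ≠ o) → ∃ P : Lp, ∀ s,
      (ev P s).count o = f (.ofFn fun i => s.count (inp i)) ∧
        ∀ r < N, r ≠ o → (ev P s).count r = s.count r := by
  induction hf with
  | zero => exact fun inp o N _ _ _ => ⟨.clr o, fun s => by simp +contextual [ev, count_filter]⟩
  | succ =>
    exact fun inp o N _ _ h => ⟨.seq (cpy (inp 0) o) (.inc o), fun s => by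
      simp +contextual [ev, ev_cpy (h 0), count_singleton]⟩
  | get i => exact fun inp o N _ _ h => ⟨cpy (inp i) o, fun s => by simp +contextual [ev_cpy (h i)]⟩
  | @comp m n f g _ _ ihf ihg =>
    intro inp o N h1 h2 h3
    have fill : ∀ j ≤ n, ∃ P : Lp, ∀ s, (∀ i : Fin n, i < j → (ev P s).count (N + i) =
        g i (.ofFn fun i => s.count (inp i))) ∧ ∀ r < N, (ev P s).count r = s.count r := fun j => by
      induction j with
      | zero => exact fun _ => ⟨.clr N, fun s => ⟨by simp, fun r h => by simp [ev, h.ne]⟩⟩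
      | succ j ih =>
        intro hj
        obtain ⟨P, hP⟩ := ih (by omega)
        obtain ⟨Q, hQ⟩ := ihg ⟨j, hj⟩ inp (N + j) (N + n) (fun i => by have := h1 i; omega)
          (by omega) fun i => by have := h1 i; omega
        refine ⟨.seq P Q, fun s => ⟨fun i hi => ?_, fun r h =>
          ((hQ _).2 r (by omega) (by omega)).trans ((hP s).2 r h)⟩⟩
        rcases (Nat.lt_succ_iff.1 hi).lt_or_eq with l | rfl
        · exact ((hQ _).2 _ (by omega) (by omega)).trans ((hP s).1 i l)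
        · exact (hQ _).1.trans (by simp only [(hP s).2 _ (h1 _)])
    obtain ⟨P, hP⟩ := fill n le_rfl
    obtain ⟨Q, hQ⟩ := ihf (fun i => N + i) o (N + n) (fun i => by omega) (by omega) fun i => by omega
    exact ⟨.seq P Q, fun s => ⟨(hQ _).1.trans (by simp only [(hP s).1 _ (Fin.is_lt _)]), fun r h e =>
      ((hQ _).2 r (by omega) e).trans ((hP s).2 r h)⟩⟩
  | @prec n f g _ _ ihf ihg =>
    intro inp o N h1 h2 h3
    obtain ⟨P, hP⟩ := ihf (fun i => inp i.succ) N (N + 3) (fun i => by have := h1 i.succ; omega)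
      (by omega) fun i => by have := h1 i.succ; omega
    obtain ⟨Q, hQ⟩ := ihg (Fin.cons (N + 1) (Fin.cons N fun i => inp i.succ)) (N + 2) (N + 3)
      (Fin.cases (by simp) (Fin.cases (by simp) fun i => by have := h1 i.succ; simp; omega))
      (by omega)
      (Fin.cases (by simp) (Fin.cases (by simp) fun i => by have := h1 i.succ; simp; omega))
    let B : Lp := .seq Q (.seq (cpy (N + 2) N) (.inc (N + 1)))
    refine ⟨.seq P (.seq (.clr (N + 1)) (.seq (.loop (inp 0) B) (cpy N o))), fun s => ?_⟩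
    let tl : List.Vector ℕ n := .ofFn fun i => s.count (inp i.succ)
    let s0 := ev (.clr (N + 1)) (ev P s)
    have k : ∀ j, ((ev B)^[j] s0).count N = Nat.rec (f tl) (fun y IH => g (y ::ᵥ IH ::ᵥ tl)) j ∧
        ((ev B)^[j] s0).count (N + 1) = j ∧ ∀ r < N, ((ev B)^[j] s0).count r = s.count r := fun j => by
      induction j with
      | zero =>
        exact ⟨by simpa [s0, ev] using (hP s).1, by simp [s0, ev], fun r h => by
          simpa [s0, ev, show r ≠ N + 1 by omega] using (hP s).2 r (by omega) h.ne⟩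
      | succ j ih =>
        rw [iterate_succ_apply']
        generalize (ev B)^[j] s0 = t at ih
        simp only [B, ev, count_add, count_singleton, ev_cpy (show N + 2 ≠ N by omega)]
        refine ⟨?_, by simp [(hQ t).2 (N + 1) (by omega) (by omega), ih.2.1], fun r h => by
          simp [h.ne, show r ≠ N + 1 by omega, (hQ t).2 r (by omega) (by omega), ih.2.2 r h]⟩
        simp only [(hQ t).1, if_true, Nat.left_eq_add, one_ne_zero, if_false, add_zero]
        refine congrArg g (List.Vector.ext (Fin.cases (by simp [ih.2.1])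
          (Fin.cases (by simp [ih.1]; rfl) fun i => by simp [tl, ih.2.2 _ (h1 _)])))
    have e : s0.count (inp 0) = s.count (inp 0) := (k 0).2.2 _ (h1 0)
    change count o (ev _ ((ev B)^[s0.count _] s0)) = _ ∧ ∀ r < N, _ → count r (ev _ ((ev B)^[s0.count _] s0)) = _
    simp only [ev_cpy h2.ne', if_true, (k _).1, e]
    exact ⟨by simp [tl], fun r h q => by simp [q, (k _).2.2 r h]⟩

theorem prim_lp' {f : ℕ → ℕ} (hf : Primrec f) :
    ∃ P : Lp, ∀ n, ev P (n • {0}) = n • {0} + f n • {1} := by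
  obtain ⟨P, hP⟩ := prim_lp (Nat.Primrec'.prim_iff₁.2 hf) ![0] 1 2 (by decide) (by decide) (by decide)
  have k : ∀ p, ∃ K, ∀ r ≥ K, ∀ s, (ev p s).count r ≤ s.count r := fun p => by
    induction p with
    | inc r => exact ⟨r + 1, fun x h s => by simp [ev, count_singleton, show x ≠ r by omega]⟩
    | clr r => exact ⟨0, fun x h s => count_le_of_le _ (filter_le _ _)⟩
    | seq p q ih ih' =>
      obtain ⟨K, ih⟩ := ih
      obtain ⟨K', ih'⟩ := ih'
      exact ⟨K + K', fun x h s => (ih' x (by omega) _).trans (ih x (by omega) _)⟩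
    | loop r p ih =>
      refine ih.imp fun K ih x h s => ?_
      rw [ev]
      induction count r s with
      | zero => rfl
      | succ j ih' => rw [iterate_succ_apply']; exact (ih x h _).trans ih'
  have c : ∀ K, ∃ C, ∀ s r, (ev C s).count r = if 2 ≤ r ∧ r ≤ K + 2 then 0 else s.count r := fun K => by
    induction K with
    | zero => exact ⟨.clr 2, fun s r => by simp only [ev, count_filter]; split_ifs <;> omega⟩
    | succ K ih =>
      obtain ⟨C, ih⟩ := ih
      exact ⟨.seq C (.clr (K + 3)), fun s r => by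
        simp only [ev, count_filter, ih]; split_ifs <;> omega⟩
  obtain ⟨K, k⟩ := k P
  obtain ⟨C, c⟩ := c K
  refine ⟨.seq P C, fun n => ext' fun r => ?_⟩
  have k1 := (hP (n • {0})).1
  have k2 := (hP (n • {0})).2 0 (by omega) (by omega)
  have k3 := k r
  rw [ev, c]
  rcases r with _ | _ | r
  · simpa using k2
  · simpa using k1
  · split_ifs with h
    · simp
    · simpa using k3 (by omega) (n • {0})

def F : Lp → ℕ → ℕ
  | .inc _, x => x + 1
  | .clr _, x => x
  | .seq p q, x => F q (F p x)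
  | .loop _ p, x => (fun y => F p y + 1)^[x] x

theorem it_mono {g : ℕ → ℕ} (h : Monotone g) (h' : ∀ x, x ≤ g x) {i j x y : ℕ} (k : i ≤ j)
    (k' : x ≤ y) : (fun y => g y + 1)^[i] x + (j - i) ≤ (fun y => g y + 1)^[j] y := by
  induction k with
  | refl => simpa using Monotone.iterate (fun _ _ q => Nat.succ_le_succ (h q)) i k'
  | @step j k ih =>
    rw [iterate_succ_apply']
    have := h' ((fun y => g y + 1)^[j] y)
    have : i ≤ j := k
    simp only [Nat.succ_eq_add_one] at *
    omega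

theorem F_spec (p : Lp) : Monotone (F p) ∧ (∀ x, x ≤ F p x) ∧ ∀ s, card (ev p s) ≤ F p (card s) := by
  induction p with
  | inc r => exact ⟨fun _ _ => Nat.succ_le_succ, Nat.le_succ, fun s => by simp [ev, F]⟩
  | clr r => exact ⟨fun _ _ => id, fun _ => le_rfl, fun s => card_le_card (filter_le _ _)⟩
  | seq p q ih ih' =>
    exact ⟨ih'.1.comp ih.1, fun x => (ih.2.1 x).trans (ih'.2.1 _),
      fun s => (ih'.2.2 _).trans (ih'.1 (ih.2.2 s))⟩
  | loop r p ih =>
    refine ⟨fun x y h => le_self_add.trans (it_mono ih.1 ih.2.1 h h), fun x =>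
      le_self_add.trans (it_mono ih.1 ih.2.1 x.zero_le le_rfl), fun s =>
        le_trans ?_ (le_self_add.trans (it_mono ih.1 ih.2.1 (count_le_card r s) le_rfl))⟩
    rw [ev]
    induction count r s with
    | zero => rfl
    | succ j ih' =>
      rw [iterate_succ_apply', iterate_succ_apply']
      exact (ih.2.2 _).trans ((ih.1 ih').trans (Nat.le_succ _))

abbrev R := ℕ ⊕ ℕ

inductive Pr : Type
  | inc (c : R) | dec (c : R) | zero (c : R) | mv (c d : R) | seq (p q : Pr) | star (p : Pr)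
  deriving Countable

def Sem (g : Prop) : Pr → Multiset R → Multiset R → Prop
  | .inc c, u, v => v = u + {c}
  | .dec c, u, v => u = v + {c} ∨ g ∧ v = u
  | .zero c, u, v => c ∉ u ∧ v = u
  | .mv c d, u, v => ∃ w, (u = w + {c} ∨ g ∧ w = u) ∧ v = w + {d}
  | .seq p q, u, v => ∃ w, Sem g p u w ∧ Sem g q w v
  | .star p, u, v => ReflTransGen (Sem g p) u v

theorem Sem.mono {p : Pr} : ∀ {u v}, Sem False p u v → Sem True p u v := by
  induction p with
  | inc | zero => exact id
  | dec => exact Or.imp_right fun h => h.1.elim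
  | mv => exact fun ⟨w, h, e⟩ => ⟨w, h.imp_right fun h => h.1.elim, e⟩
  | seq p q ih ih' => exact fun ⟨w, h, e⟩ => ⟨w, ih h, ih' e⟩
  | star p ih => exact ReflTransGen.mono (fun _ _ => ih) _ _

def Cons (p : Pr) : Prop :=
  ∀ u v, Sem True p u v → card u ≤ card v ∧ (card v ≤ card u → Sem False p u v)

theorem Cons.mv (c d : R) : Cons (.mv c d) := by
  rintro u _ ⟨w, rfl | ⟨-, rfl⟩, rfl⟩
  exacts [⟨by simp, fun _ => ⟨w, .inl rfl, rfl⟩⟩, by simp]

theorem Cons.zero (c : R) : Cons (.zero c) := fun _ _ h => ⟨h.2 ▸ le_rfl, fun _ => h⟩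

theorem Cons.seq {p q : Pr} (h : Cons p) (h' : Cons q) : Cons (.seq p q) := fun u v ⟨w, k, k'⟩ =>
  ⟨(h _ _ k).1.trans (h' _ _ k').1, fun e => ⟨w, (h _ _ k).2 ((h' _ _ k').1.trans e),
    (h' _ _ k').2 (e.trans (h _ _ k).1)⟩⟩

theorem Cons.star {p : Pr} (h : Cons p) : Cons (.star p) := fun u v k => by
  induction k with
  | refl => exact ⟨le_rfl, fun _ => .refl⟩
  | tail _ q ih => exact ⟨ih.1.trans (h _ _ q).1, fun e =>
      (ih.2 ((h _ _ q).1.trans e)).tail ((h _ _ q).2 (e.trans ih.1))⟩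

def Lin (q : Pr) (α β : Multiset R) : Prop := (∀ w, Sem False q (w + α) (w + β)) ∧
  ∀ g u v, Sem g q u v → ∃ α' ≤ α, (¬ g → α' = α) ∧ u + β = v + α'

theorem Lin.inc (c : R) : Lin (.inc c) 0 {c} :=
  ⟨fun w => by simp [Sem], fun _ _ _ h => ⟨0, le_rfl, fun _ => rfl, by rw [h, add_zero]⟩⟩

theorem Lin.dec (c : R) : Lin (.dec c) {c} 0 := ⟨fun w => by simp [Sem], by
  rintro g _ v (rfl | ⟨h, rfl⟩)
  exacts [⟨_, le_rfl, fun _ => rfl, add_zero _⟩, ⟨0, zero_le _, fun k => (k h).elim, rfl⟩]⟩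

theorem Lin.mv (c d : R) : Lin (.mv c d) {c} {d} := ⟨fun w => ⟨w, .inl rfl, rfl⟩, by
  rintro g _ _ ⟨w, rfl | ⟨h, rfl⟩, rfl⟩
  exacts [⟨_, le_rfl, fun _ => rfl, by abel⟩, ⟨0, zero_le _, fun k => (k h).elim, (add_zero _).symm⟩]⟩

theorem Lin.seq {p q : Pr} {α β γ δ : Multiset R} (h : Lin p α β) (h' : Lin q γ δ) :
    Lin (.seq p q) (α + γ) (β + δ) := by
  refine ⟨fun w => ⟨w + β + γ, ?_, ?_⟩, fun g u v ⟨w, k, k'⟩ => ?_⟩
  · simpa [add_assoc, add_comm, add_left_comm] using h.1 (w + γ)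
  · simpa [add_assoc] using h'.1 (w + β)
  · obtain ⟨a, a1, a2, a3⟩ := h.2 g _ _ k
    obtain ⟨b, b1, b2, b3⟩ := h'.2 g _ _ k'
    exact ⟨a + b, add_le_add a1 b1, fun e => by rw [a2 e, b2 e], by
      rw [← add_assoc, a3, add_right_comm, b3]; abel⟩

theorem Lin.ex {p : Pr} {α β : Multiset R} (h : Lin p α β) (n : ℕ) (w : Multiset R) :
    Sem False (.star p) (w + n • α) (w + n • β) := by
  induction n generalizing w with
  | zero => rw [zero_nsmul, zero_nsmul]; exact .refl
  | succ n ih =>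
    rw [succ_nsmul, succ_nsmul', ← add_assoc, ← add_assoc]
    exact ReflTransGen.head (h.1 _) (add_right_comm w β _ ▸ ih _)

theorem Lin.st {p : Pr} {α β u v : Multiset R} {g : Prop} (h : Lin p α β) (k : Sem g (.star p) u v) :
    ∃ n : ℕ, ∃ α' ≤ n • α, (¬ g → α' = n • α) ∧ u + n • β = v + α' := by
  induction k with
  | refl => exact ⟨0, 0, by simp⟩
  | tail _ q ih =>
    obtain ⟨n, a, a1, a2, a3⟩ := ih
    obtain ⟨b, b1, b2, b3⟩ := h.2 g _ _ q
    exact ⟨n + 1, a + b, succ_nsmul α n ▸ add_le_add a1 b1, fun e => by rw [a2 e, b2 e, succ_nsmul],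
      by rw [succ_nsmul, ← add_assoc, a3, add_right_comm, b3]; abel⟩

def dr (p : Pr) (x : R) : Pr := .seq (.star p) (.zero x)

theorem Lin.dr {p : Pr} {x y : R} {β w v : Multiset R} {g : Prop} {k e : ℕ}
    (h : Lin p ({x} + e • {y}) β) (h1 : x ∉ w) (h2 : x ∉ β) (h3 : x ≠ y)
    (q : Sem g (dr p x) (w + k • {x}) v) :
    ∃ n j : ℕ, k ≤ n ∧ j ≤ n * e ∧ (¬ g → n = k ∧ j = n * e) ∧ v + j • {y} = w + n • β := by
  obtain ⟨_, q, q1, rfl⟩ := q
  obtain ⟨n, a, a1, a2, a3⟩ := h.st q
  rw [← count_eq_zero] at h1 h2 q1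
  have k1 := fun r => count_le_of_le r a1
  have k2 := fun r => congrArg (count r) a3
  have k3 := k1 x
  have k4 := k2 x
  have k5 := k1 y
  simp [h1, h2, h3, h3.symm, q1] at k3 k4 k5
  refine ⟨n, a.count y, by omega, k5, fun c => by simp [a2 c, h3, h3.symm] at k4 ⊢; omega,
    ext' fun r => ?_⟩
  specialize k1 r
  specialize k2 r
  by_cases c : r = x
  · simp [c, h1, h2, h3, q1]
  by_cases c' : r = y
  · subst c'; simpa [h3.symm] using k2.symm
  · simp only [count_add, count_nsmul, count_singleton, c, c', if_false] at k1 k2 ⊢; omega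

theorem Lin.dr1 {p : Pr} {x : R} {β w v : Multiset R} {g : Prop} {k : ℕ} (h : Lin p {x} β)
    (h1 : x ∉ w) (h2 : x ∉ β) (q : Sem g (MP_4c145a_lc.dr p x) (w + k • {x}) v) :
    ∃ n : ℕ, k ≤ n ∧ (¬ g → n = k) ∧ v = w + n • β := by
  obtain ⟨y, hy⟩ := exists_ne x
  obtain ⟨n, j, k1, k2, k3, k4⟩ := Lin.dr (e := 0) (by simpa using h) h1 h2 hy.symm q
  exact ⟨n, k1, fun c => (k3 c).1, by simpa [show j = 0 by omega] using k4⟩

theorem Lin.dx {p : Pr} {x : R} {α β : Multiset R} (h : Lin p α β) (n : ℕ) {w u v : Multiset R}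
    (h1 : x ∉ w) (h2 : x ∉ β) (e1 : u = w + n • α) (e2 : v = w + n • β) :
    Sem False (MP_4c145a_lc.dr p x) u v :=
  e1 ▸ e2 ▸ ⟨_, h.ex n w, by simp [h1, mem_nsmul, h2], rfl⟩

end Pool.Agent.H.MP_4c145a_lc
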