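import Pool.Agent.H.MP_4c145a_lc.A

set_option autoImplicit false
set_option linter.unusedSimpArgs false
set_option linter.unusedVariables false

namespace Pool.Agent.H.MP_4c145a_lc

open Relation Multiset Sum Function

abbrev B : R := inr 0
abbrev T : R := inr 1
abbrev t (d : ℕ) : R := inr (d + 3)

def Up : ℕ → Lp → Pr
  | _, .inc _ => .inc B
  | _, .clr _ => .zero T
  | d, .seq p q => .seq (Up d p) (Up d q)
  | d, .loop _ p => .seq (dr (.seq (.mv B T) (.inc (t d))) B) (.seq (dr (.mv T B) T)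
      (dr (.seq (.dec (t d)) (.seq (Up (d + 1) p) (.inc B))) (t d)))

def Dn : ℕ → Lp → Pr
  | _, .inc _ => .dec B
  | _, .clr _ => .zero T
  | d, .seq p q => .seq (Dn d q) (Dn d p)
  | d, .loop _ p => .seq (.star (.seq (.inc (t d)) (.seq (.dec B) (Dn (d + 1) p))))
      (.seq (dr (.seq (.dec (t d)) (.mv B T)) (t d)) (dr (.mv T B) T))

def τ : ℕ → Lp → Pr
  | _, .inc r => .mv B (inl r)
  | _, .clr r => dr (.mv (inl r) B) (inl r)
  | d, .seq p q => .seq (τ d p) (τ d q)
  | d, .loop r p => .seq (dr (.seq (.mv (inl r) T) (.mv B (t d))) (inl r))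
      (.seq (dr (.mv T (inl r)) T) (dr (.seq (.mv (t d) B) (τ (d + 1) p)) (t d)))

def Fr (d : ℕ) (w : Multiset R) : Prop := B ∉ w ∧ T ∉ w ∧ ∀ j ≥ d, t j ∉ w

theorem Fr.add {d : ℕ} {w : Multiset R} (h : Fr d w) (s : ℕ) : Fr (d + 1) (w + s • {t d}) :=
  ⟨by simp [h.1, mem_nsmul], by simp [h.2.1, mem_nsmul], fun j k => by
    simp [h.2.2 j (by omega), mem_nsmul, show j ≠ d by omega]⟩

theorem dec_inv {g : Prop} {x : R} {w v : Multiset R} {s : ℕ} (h : x ∉ w)
    (q : Sem g (.dec x) (w + s • {x}) v) :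
    ∃ s', s ≤ s' + 1 ∧ (¬ g → s = s' + 1) ∧ v = w + s' • {x} := by
  obtain q | ⟨c, rfl⟩ := q
  · cases s with
    | zero => exact (h (by simp at q; simp [q])).elim
    | succ s => exact ⟨s, le_rfl, fun _ => rfl, add_right_cancel
        (q.symm.trans (by rw [succ_nsmul, add_assoc]))⟩
  · exact ⟨s, by omega, fun k => (k c).elim, rfl⟩

theorem up_s (p : Lp) : ∀ d w n v, Fr d w → Sem True (Up d p) (w + n • {B}) v →
    ∃ m, F p n ≤ m ∧ v = w + m • {B} := by
  induction p with
  | inc => exact fun d w n v _ h => ⟨n + 1, le_rfl, by rw [h, succ_nsmul, add_assoc]⟩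
  | clr => exact fun d w n v _ h => ⟨n, le_rfl, h.2⟩
  | seq p q ih ih' =>
    rintro d w n v h ⟨_, k, k'⟩
    obtain ⟨m, m1, rfl⟩ := ih d w n _ h k
    exact (ih' d w m v h k').imp fun l q' => ⟨((F_spec q).1 m1).trans q'.1, q'.2⟩
  | loop r p ih =>
    rintro d w n v h ⟨_, k1, _, k2, _, k3, k4, rfl⟩
    obtain ⟨k, n1, -, rfl⟩ := ((Lin.mv B T).seq (.inc (t d))).dr1 h.1 (by simp) k1
    rw [smul_add, add_comm (k • _), ← add_assoc] at k2
    obtain ⟨j, n2, -, rfl⟩ := (Lin.mv T B).dr1 (h.add k).2.1 (by simp) k2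
    have : ∃ i s m, v = w + s • {t d} + m • {B} ∧ (fun y => F p y + 1)^[i] n ≤ m ∧ n ≤ s + i := by
      clear k4
      induction k3 with
      | refl => exact ⟨0, k, j, rfl, n1.trans n2, n1⟩
      | tail _ q ih' =>
        obtain ⟨i, s, m, rfl, e1, e2⟩ := ih'
        obtain ⟨_, q1, _, q2, rfl⟩ := q
        rw [add_right_comm] at q1
        obtain ⟨s', s1, -, rfl⟩ := dec_inv (by simp [h.2.2 d le_rfl, mem_nsmul]) q1
        rw [add_right_comm] at q2
        obtain ⟨m', m1, rfl⟩ := ih _ _ _ _ (h.add s') q2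
        exact ⟨i + 1, s', m' + 1, by rw [succ_nsmul, add_assoc], by
          rw [iterate_succ_apply']; exact Nat.succ_le_succ (((F_spec p).1 e1).trans m1), by omega⟩
    obtain ⟨i, s, m, rfl, e1, e2⟩ := this
    obtain rfl : s = 0 := by by_contra c; simp [mem_nsmul, c] at k4
    exact ⟨m, (le_self_add.trans (it_mono (F_spec p).1 (F_spec p).2.1 (by omega) le_rfl)).trans e1,
      by simp⟩

theorem up_x (p : Lp) : ∀ d w n, Fr d w → Sem False (Up d p) (w + n • {B}) (w + F p n • {B}) := by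
  induction p with
  | inc => exact fun d w n _ => by rw [F, succ_nsmul, ← add_assoc]; rfl
  | clr => exact fun d w n h => ⟨by simp [h.2.1, mem_nsmul], rfl⟩
  | seq p q ih ih' => exact fun d w n h => ⟨_, ih d w n h, ih' d w _ h⟩
  | loop r p ih =>
    intro d w n h
    have : ∀ j m, ReflTransGen (Sem False (.seq (.dec (t d)) (.seq (Up (d + 1) p) (.inc B))))
        (w + j • {t d} + m • {B}) (w + (fun y => F p y + 1)^[j] m • {B}) := fun j => by
      induction j with
      | zero => intro m; simp [ReflTransGen.refl]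
      | succ j ih' =>
        exact fun m => .head ⟨_, .inl (by rw [succ_nsmul]; abel), _, ih _ _ m (h.add j), by
          rw [Sem, succ_nsmul, ← add_assoc]⟩ (ih' (F p m + 1))
    exact ⟨_, ((Lin.mv B T).seq (.inc (t d))).dx n h.1 (by simp) (by simp) rfl, _,
      (Lin.mv T B).dx n (h.add n).2.1 (by simp) (by rw [smul_add]; abel) rfl, _, this n n,
      by simp [h.2.2 d le_rfl, mem_nsmul], rfl⟩

theorem dn_s (p : Lp) : ∀ d w m v, Fr d w → Sem True (Dn d p) (w + m • {B}) v →
    ∃ n, m ≤ F p n ∧ v = w + n • {B} := by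
  induction p with
  | inc => exact fun d w n v h k => (dec_inv h.1 k).imp fun _ q => ⟨q.1, q.2.2⟩
  | clr => exact fun d w n v _ h => ⟨n, le_rfl, h.2⟩
  | seq p q ih ih' =>
    rintro d w n v h ⟨_, k, k'⟩
    obtain ⟨m, m1, rfl⟩ := ih' d w n _ h k
    exact (ih d w m v h k').imp fun l q' => ⟨m1.trans ((F_spec q).1 q'.1), q'.2⟩
  | loop r p ih =>
    rintro d w m v h ⟨u, k1, _, k2, k3⟩
    have : ∃ i s, u = w + i • {t d} + s • {B} ∧ m ≤ (fun y => F p y + 1)^[i] s := by
      clear k2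
      induction k1 with
      | refl => exact ⟨0, m, by simp, le_rfl⟩
      | tail _ q ih' =>
        obtain ⟨i, s, rfl, e1⟩ := ih'
        obtain ⟨_, rfl, _, q1, q2⟩ := q
        rw [add_right_comm, add_assoc w, ← succ_nsmul] at q1
        obtain ⟨s', s1, -, rfl⟩ := dec_inv (h.add _).1 q1
        obtain ⟨n, n1, rfl⟩ := ih _ _ _ _ (h.add _) q2
        exact ⟨i + 1, n, rfl, e1.trans (le_self_add.trans
          (it_mono (F_spec p).1 (F_spec p).2.1 (le_refl i) (show s ≤ F p n + 1 by omega)) :)⟩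
    obtain ⟨i, s, rfl, e1⟩ := this
    rw [add_right_comm] at k2
    obtain ⟨n, j, n1, n2, -, e⟩ := Lin.dr (e := 1) (β := {T}) (by simpa using (Lin.dec (t d)).seq (.mv B T))
      (by simp [h.2.2 d le_rfl, mem_nsmul]) (by simp) (by simp) k2
    obtain ⟨s, rfl⟩ := Nat.exists_eq_add_of_le' (show j ≤ s by
      have := congrArg (count B) e; simp [count_eq_zero.2 h.1] at this; omega)
    rw [add_nsmul, ← add_assoc, add_right_comm _ _ (n • _), add_left_inj] at e
    obtain ⟨l, l1, -, rfl⟩ := (Lin.mv T B).dr1 (by simp [h.2.1, mem_nsmul]) (by simp) (e ▸ k3)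
    exact ⟨s + l, e1.trans (le_self_add.trans (it_mono (F_spec p).1 (F_spec p).2.1 (by omega)
      (by omega))), by rw [add_nsmul, add_assoc]⟩

theorem dn_x (p : Lp) : ∀ d w n, Fr d w → Sem False (Dn d p) (w + F p n • {B}) (w + n • {B}) := by
  induction p with
  | inc => exact fun d w n _ => .inl (by rw [F, succ_nsmul, ← add_assoc])
  | clr => exact fun d w n h => ⟨by simp [h.2.1, mem_nsmul], rfl⟩
  | seq p q ih ih' => exact fun d w n h => ⟨_, ih' d w _ h, ih d w n h⟩
  | loop r p ih =>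
    intro d w n h
    have : ∀ i j, ReflTransGen (Sem False (.seq (.inc (t d)) (.seq (.dec B) (Dn (d + 1) p))))
        (w + j • {t d} + (fun y => F p y + 1)^[i] n • {B}) (w + (j + i) • {t d} + n • {B}) :=
      fun i => by
        induction i with
        | zero => exact fun j => .refl
        | succ i ih' =>
          refine fun j => .head ⟨_, rfl, _, .inl ?_, ih _ _ _ (h.add (j + 1))⟩
            (by simpa [add_assoc, add_comm 1] using ih' (j + 1))
          rw [iterate_succ_apply', succ_nsmul, succ_nsmul]; abel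
    have e := this n 0
    rw [zero_nsmul, add_zero, zero_add] at e
    exact ⟨_, e, _, ((Lin.dec (t d)).seq (.mv B T)).dx n (h.2.2 d le_rfl)
      (by simp) (by rw [smul_add, add_assoc]) rfl, (Lin.mv T B).dx n h.2.1 (by simp) (by simp) rfl⟩

theorem τ_c (p : Lp) : ∀ d, Cons (τ d p) := by
  induction p with
  | inc => exact fun _ => .mv _ _
  | clr => exact fun _ => (Cons.mv _ _).star.seq (.zero _)
  | seq p q ih ih' => exact fun d => (ih d).seq (ih' d)
  | loop r p ih =>
    exact fun d => (((Cons.mv _ _).seq (.mv _ _)).star.seq (.zero _)).seq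
      (((Cons.mv _ _).star.seq (.zero _)).seq (((Cons.mv _ _).seq (ih _)).star.seq (.zero _)))

theorem τ_card (p : Lp) : ∀ d u v, Sem False (τ d p) u v → card v = card u := by
  have a : ∀ c d u v, Sem False (.mv c d) u v → card v = card u := by
    rintro c d _ _ ⟨w, rfl | ⟨⟨⟩, -⟩, rfl⟩; simp
  have b : ∀ {p q}, (∀ u v, Sem False p u v → card v = card u) → (∀ u v, Sem False q u v →
      card v = card u) → ∀ u v, Sem False (.seq p q) u v → card v = card u :=
    fun h h' _ _ ⟨_, k, k'⟩ => (h' _ _ k').trans (h _ _ k)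
  have c : ∀ {p x}, (∀ u v, Sem False p u v → card v = card u) →
      ∀ u v, Sem False (dr p x) u v → card v = card u := by
    rintro p x h u v ⟨_, k, -, rfl⟩
    induction k with
    | refl => rfl
    | tail _ q ih => exact (h _ _ q).trans ih
  induction p with
  | inc => exact fun _ => a _ _
  | clr => exact fun _ => c (a _ _)
  | seq p q ih ih' => exact fun d => b (ih d) (ih' d)
  | loop r p ih => exact fun d => b (c (b (a _ _) (a _ _))) (b (c (a _ _)) (c (b (a _ _) (ih _))))

def Z (d k : ℕ) (u : Multiset R) : Prop := (∀ j ≥ d, t j ∉ u) ∧ u.count (inr 2) = k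

theorem Lin.z {p : Pr} {α β u v : Multiset R} {d k : ℕ} (h : Lin p α β) (h1 : inr 2 ∉ α)
    (h2 : Z d 0 β) (q : Sem True (.star p) u v) (z : Z d k u) :
    Z d k v ∧ (T ∉ β → T ∉ u → T ∉ v) := by
  obtain ⟨n, a, a1, -, a2⟩ := h.st q
  have m : ∀ x, x ∉ β → x ∉ u → x ∉ v := fun x x1 x2 x3 => by
    simpa [x1, x2, mem_nsmul] using show x ∈ u + n • β from a2 ▸ mem_add.2 (.inl x3)
  refine ⟨⟨fun j l => m _ (h2.1 j l) (z.1 j l), ?_⟩, m _⟩
  have := count_le_of_le (inr 2) a1
  have e := congrArg (count (inr 2)) a2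
  simp only [count_add, count_nsmul, h2.2, z.2, count_eq_zero.2 h1] at this e
  omega

theorem τ_z (p : Lp) : ∀ d k u v, Sem True (τ d p) u v → T ∉ u → Z d k u → T ∉ v ∧ Z d k v := by
  induction p with
  | inc => rintro d k _ _ ⟨w, rfl | ⟨-, rfl⟩, rfl⟩ <;> simp +contextual [Z]
  | clr r =>
    rintro d k u _ ⟨v, q, -, rfl⟩ h z
    exact let k := (Lin.mv _ _).z (by simp) (by simp [Z]) q z; ⟨k.2 (by simp) h, k.1⟩
  | seq p q ih ih' =>
    exact fun d k u v ⟨w, q, q'⟩ h z => let k := ih d k u w q h z; ih' d _ w v q' k.1 k.2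
  | loop r p ih =>
    rintro d k u v ⟨_, ⟨_, q1, -, rfl⟩, _, ⟨_, q2, q3, rfl⟩, _, q4, q5, rfl⟩ h z
    have z1 := (((Lin.mv _ _).seq (.mv _ _)).z (d := d + 1) (by simp)
      (by simp [Z]; omega) q1 ⟨fun j l => z.1 j (by omega), z.2⟩).1
    have z2 := ((Lin.mv _ _).z (by simp) (by simp [Z]) q2 z1).1
    have : T ∉ v ∧ Z (d + 1) k v := by
      clear q5
      induction q4 with
      | refl => exact ⟨q3, z2⟩
      | tail _ q ih' =>
        obtain ⟨_, ⟨w, rfl | ⟨-, rfl⟩, rfl⟩, q⟩ := q <;> refine ih _ _ _ _ q ?_ ?_ <;>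
          simp_all +contextual [Z]
    exact ⟨this.1, fun j l => l.lt_or_eq.elim (this.2.1 j) fun e => e ▸ q5, this.2.2⟩

theorem split (s : Multiset ℕ) (r : ℕ) :
    s.map inl = (s.filter (· ≠ r)).map inl + s.count r • ({inl r} : Multiset R) := by
  conv_lhs => rw [← filter_add_not (· ≠ r) s]
  simp [filter_eq', nsmul_singleton]

theorem τ_s (p : Lp) : ∀ d s w (b : ℕ) v, Fr d w → (∀ r, inl r ∉ w) →
    Sem False (τ d p) (s.map inl + w + b • {B}) v → ∃ b' : ℕ, v = (ev p s).map inl + w + b' • {B} := by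
  induction p with
  | inc r =>
    rintro d s w b _ h h' ⟨u, q, rfl⟩
    obtain ⟨b', -, -, rfl⟩ := dec_inv (g := False) (by simp [h.1]) (q.imp_right fun q => q.1.elim)
    exact ⟨b', by simp only [ev, Multiset.map_add, map_singleton]; abel⟩
  | clr r =>
    intro d s w b v h h' q
    rw [split s r, add_right_comm _ _ w, add_right_comm] at q
    obtain ⟨n, -, -, rfl⟩ := (Lin.mv _ B).dr1 (by simp [h' r, mem_nsmul]) (by simp) q
    exact ⟨b + n, by rw [add_nsmul, ev, add_assoc]⟩
  | seq p q ih ih' =>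
    rintro d s w b v h h' ⟨_, k, k'⟩
    obtain ⟨b', rfl⟩ := ih d s w b _ h h' k
    exact ih' d _ w b' v h h' k'
  | loop r p ih =>
    rintro d s w b v h h' ⟨u, k1, _, k2, _, k3, k4, rfl⟩
    rw [split s r, add_right_comm _ _ w, add_right_comm] at k1
    obtain ⟨_, _, -, -, e, e'⟩ := Lin.dr (e := 1) (β := {T} + {t d})
      (by rw [one_nsmul]; exact (Lin.mv _ T).seq (.mv B (t d)))
      (by simp [h' r, mem_nsmul]) (by simp) (by simp) k1
    obtain ⟨rfl, rfl⟩ := e id
    obtain ⟨b, rfl⟩ := Nat.exists_eq_add_of_le' (show s.count r * 1 ≤ b by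
      have := congrArg (count B) e'; simp [count_eq_zero.2 h.1, count_eq_zero_of_notMem] at this; omega)
    replace e' : u = (s.filter (· ≠ r)).map inl + w + b • {B} + s.count r • {t d} + s.count r • {T} :=
      add_right_cancel (e'.trans (by rw [add_nsmul, smul_add]; abel))
    obtain ⟨_, -, e, rfl⟩ := (Lin.mv T _).dr1 (by simp [h.2.1, mem_nsmul]) (by simp) (e' ▸ k2)
    obtain rfl := e id
    have : ∃ i j b', i + j = s.count r ∧
        v = ((ev p)^[i] s).map inl + (w + j • {t d}) + (b' : ℕ) • {B} := by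
      clear k4
      induction k3 with
      | refl => exact ⟨0, _, b, zero_add _, by rw [iterate_zero, id, split s r]; abel⟩
      | tail _ q ih' =>
        obtain ⟨i, j, b', e1, rfl⟩ := ih'
        obtain ⟨_, ⟨u, q1, rfl⟩, q2⟩ := q
        rw [← add_assoc, add_right_comm] at q1
        obtain ⟨j', -, e2, rfl⟩ := dec_inv (g := False) (by simp [h.2.2 d le_rfl, mem_nsmul])
          (q1.imp_right fun q => q.1.elim)
        rw [add_right_comm _ (b' • _), add_assoc _ (b' • _), ← succ_nsmul, add_assoc _ w] at q2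
        obtain ⟨b'', rfl⟩ := ih _ _ _ (b' + 1) _ (h.add j') (by simp [h', mem_nsmul]) q2
        exact ⟨i + 1, j', b'', by have := e2 id; omega, by rw [iterate_succ_apply']⟩
    obtain ⟨i, j, b', e1, rfl⟩ := this
    obtain rfl : j = 0 := by by_contra c; simp [mem_nsmul, c] at k4
    exact ⟨b', by simp [ev, ← e1]⟩

theorem τ_x (p : Lp) : ∀ d s w b, Fr d w → (∀ r, inl r ∉ w) → F p (card s) ≤ card s + b →
    ∃ v, Sem False (τ d p) (s.map inl + w + b • {B}) v := by
  induction p with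
  | inc r =>
    intro d s w b _ _ h
    obtain ⟨b, rfl⟩ := Nat.exists_eq_add_of_le' (show 1 ≤ b by simpa [F] using h)
    exact ⟨_, _, .inl (by rw [succ_nsmul, ← add_assoc]), rfl⟩
  | clr r =>
    exact fun d s w b h h' _ => ⟨_, (Lin.mv _ B).dx (s.count r) (w := (s.filter (· ≠ r)).map inl + w +
      b • {B}) (by simp [h' r, mem_nsmul]) (by simp) (by rw [split s r]; abel) rfl⟩
  | seq p q ih ih' =>
    intro d s w b h h' k
    obtain ⟨v, e⟩ := ih d s w b h h' (((F_spec q).2.1 _).trans k)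
    obtain ⟨b', rfl⟩ := τ_s p d s w b v h h' e
    have := (τ_c p d _ _ e.mono).1
    simp only [card_add, card_map, card_nsmul, card_singleton] at this
    obtain ⟨v, e'⟩ := ih' d (ev p s) w b' h h'
      (((F_spec q).1 ((F_spec p).2.2 s)).trans (k.trans (by omega)))
    exact ⟨v, _, e, e'⟩
  | loop r p ih =>
    intro d s w b h h' k
    have m := @it_mono _ (F_spec p).1 (F_spec p).2.1
    have : ∀ j s b, (fun y => F p y + 1)^[j] (card s) ≤ card s + b + j → ∃ v, Sem False
        (dr (.seq (.mv (t d) B) (τ (d + 1) p)) (t d)) (s.map inl + (w + j • {t d}) + b • {B}) v :=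
      fun j => by
        induction j with
        | zero => exact fun s b _ => ⟨_, _, .refl, by simp [h.2.2 d le_rfl, mem_nsmul], rfl⟩
        | succ j ih' =>
          intro s b k
          have k1 := m j.zero_le (le_refl (F p (card s) + 1))
          rw [iterate_succ_apply] at k
          obtain ⟨v, e⟩ := ih (d + 1) s _ (b + 1) (h.add j) (by simp [h', mem_nsmul])
            (by simp only [iterate_zero, id] at k1; omega)
          obtain ⟨b', rfl⟩ := τ_s p _ s _ _ v (h.add j) (by simp [h', mem_nsmul]) e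
          have k2 := (τ_c p _ _ _ e.mono).1
          simp only [card_add, card_map, card_nsmul, card_singleton] at k2
          have k3 := m (le_refl j) (((F_spec p).2.2 s).trans (Nat.le_succ _))
          obtain ⟨v, u, e1, e2⟩ := ih' (ev p s) b' (by simp only [Nat.succ_eq_add_one] at k3; omega)
          exact ⟨v, u, .head ⟨_, ⟨s.map inl + (w + j • {t d}) + b • {B},
            .inl (by rw [succ_nsmul]; abel), by rw [succ_nsmul, ← add_assoc]⟩, e⟩ e1, e2⟩
    have k1 := m (card s).zero_le (le_refl (card s))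
    have k2 := m (count_le_card r s) (le_refl (card s))
    have k3 := count_le_card r s
    rw [F] at k
    obtain ⟨b, rfl⟩ := Nat.exists_eq_add_of_le' (show s.count r ≤ b by
      simp only [iterate_zero, id] at k1; omega)
    obtain ⟨v, e⟩ := this (s.count r) s b (by omega)
    exact ⟨v, _, ((Lin.mv _ T).seq (.mv B (t d))).dx (s.count r) (w := (s.filter (· ≠ r)).map inl + w +
      b • {B}) (by simp [h' r, mem_nsmul]) (by simp) (by rw [split s r, smul_add, add_nsmul]; abel) rfl,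
      _, (Lin.mv T _).dx (s.count r) (w := (s.filter (· ≠ r)).map inl + w + b • {B} +
        s.count r • {t d}) (by simp [h.2.1, mem_nsmul]) (by simp) (by rw [smul_add]; abel)
        (by rw [split s r]; abel), e⟩

theorem slice {f : ℕ → ℕ} (hf : Primrec f) : ∃ p : Pr, ∀ n : ℕ,
    Sem True p 0 (n • {inl 0} + n • {inr 2} + n • {B}) ↔ f n = 0 := by
  obtain ⟨P, hP⟩ := prim_lp' hf
  have l := (Lin.inc (inl 0)).seq (.inc (inr 2)) |>.seq (.inc B)
  have fr : ∀ n : ℕ, Fr 0 (n • {inl 0} + n • {inr 2}) := fun n => by simp [Fr, mem_nsmul]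
  have fr' : ∀ n : ℕ, Fr 0 (n • {inr 2}) := fun n => by simp [Fr, mem_nsmul]
  have e0 : ∀ n : ℕ, (n • {inl 0} : Multiset R) = (n • {0} : Multiset ℕ).map inl := by
    simp [Multiset.map_nsmul]
  refine ⟨.seq (.star (.seq (.seq (.inc (inl 0)) (.inc (inr 2))) (.inc B))) (.seq (Up 0 P) (.seq (τ 0 P) (Dn 0 P))), fun n => ⟨?_, fun h => ?_⟩⟩
  rotate_left
  · obtain ⟨v, e⟩ := τ_x P 0 (n • {0}) _ (F P n) (fr' n) (by simp [mem_nsmul]) (by simp)
    obtain ⟨b, rfl⟩ := τ_s P _ _ _ _ v (fr' n) (by simp [mem_nsmul]) e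
    rw [hP, h, zero_nsmul, add_zero, ← e0] at e
    have c := τ_c P 0 _ _ e.mono
    have : b = F P n := by
      have k := τ_card P 0 _ _ e
      simpa using k
    refine Sem.mono ⟨_, ?_, _, up_x P 0 _ n (fr n), _, e, this ▸ dn_x P 0 _ n (fr n)⟩
    simpa only [zero_add, add_zero, smul_zero, smul_add] using l.ex n 0
  · rintro ⟨_, q1, _, q2, u, q3, q4⟩
    obtain ⟨k, a, a1, -, a2⟩ := l.st q1
    obtain rfl : a = 0 := by simpa using a1
    rw [zero_add, add_zero, smul_add, smul_add] at a2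
    obtain ⟨m, m1, rfl⟩ := up_s P 0 _ k _ (fr k) (a2 ▸ q2)
    obtain ⟨z1, z2, z3⟩ := τ_z P 0 k _ _ q3 (by simp [mem_nsmul]) (by simp [Z, mem_nsmul])
    have e : u = u.filter (· ≠ B) + u.count B • {B} := by
      conv_lhs => rw [← filter_add_not (· ≠ B) u]
      simp [filter_eq', nsmul_singleton]
    obtain ⟨n', n1, n2⟩ := dn_s P 0 _ _ _ ⟨by simp, by simp [z1], by simpa using z2⟩ (e ▸ q4)
    obtain rfl : n = n' := by simpa using congrArg (count B) n2
    rw [add_left_inj] at n2
    rw [← n2] at e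
    obtain rfl : n = k := by simpa [z3] using (congrArg (count (inr 2)) e).symm
    obtain ⟨b, e'⟩ := τ_s P 0 _ _ _ _ (fr' n) (by simp [mem_nsmul]) (e0 n ▸ (τ_c P 0 _ _ q3).2
      (by rw [e]; simp; omega))
    have := congrArg (count (inl 1)) (e.symm.trans e')
    simpa [hP, Multiset.map_nsmul] using this.symm

end Pool.Agent.H.MP_4c145a_lc
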