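import Pool.Agent.H.MP_4c145a_lc.B
import Pool.Agent.Lib.helper21.PR

set_option autoImplicit false
set_option linter.unusedSimpArgs false
set_option linter.unusedVariables false

namespace Pool.Agent.H.MP_4c145a_lc

open Relation Function Pool.Agent.Lib.helper21.PR

inductive Sil : List Pr → List Pr → Prop
  | mv (c d k) : Sil (.mv c d :: k) (.dec c :: .inc d :: k)
  | seq (p q k) : Sil (.seq p q :: k) (p :: q :: k)
  | out (p k) : Sil (.star p :: k) k
  | go (p k) : Sil (.star p :: k) (p :: .star p :: k)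

inductive M : List Pr × Multiset R → List Pr × Multiset R → Prop
  | sil {k k'} (u) : Sil k k' → M (k, u) (k', u)
  | inc (c k u) : M (.inc c :: k, u) (k, u + {c})
  | dec (c k u) : M (.dec c :: k, u + {c}) (k, u)
  | skip (c k u) : M (.dec c :: k, u) (k, u)
  | zero (c k u) : c ∉ u → M (.zero c :: k, u) (k, u)

theorem run (p : Pr) (v : Multiset R) : ReflTransGen M ([p], 0) ([], v) ↔ Sem True p 0 v := by
  have k1 : ∀ p k u v, Sem True p u v → ReflTransGen M (p :: k, u) (k, v) := fun p => by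
    induction p with
    | inc c => rintro k u _ rfl; exact .single (.inc ..)
    | dec c => rintro k _ v (rfl | ⟨-, rfl⟩); exacts [.single (.dec ..), .single (.skip ..)]
    | zero c => rintro k _ v ⟨h, rfl⟩; exact .single (.zero _ _ _ h)
    | mv c d =>
      rintro k _ _ ⟨w, rfl | ⟨-, rfl⟩, rfl⟩
      exacts [.head (.sil _ (.mv ..)) (.head (.dec ..) (.single (.inc ..))),
        .head (.sil _ (.mv ..)) (.head (.skip ..) (.single (.inc ..)))]
    | seq p q ih ih' =>
      exact fun k u v ⟨w, h, h'⟩ => .head (.sil _ (.seq ..)) ((ih _ _ _ h).trans (ih' _ _ _ h'))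
    | star p ih =>
      intro k u v h
      induction h using ReflTransGen.head_induction_on with
      | refl => exact .single (.sil _ (.out ..))
      | head h _ ih' => exact .head (.sil _ (.go ..)) ((ih _ _ _ h).trans ih')
  let S : List Pr → Multiset R → Prop := fun k => k.foldr (fun p r u => ∃ w, Sem True p u w ∧ r w) (· = v)
  have k2 : ∀ x, ReflTransGen M x ([], v) → S x.1 x.2 := fun x h => by
    induction h using ReflTransGen.head_induction_on with
    | refl => rfl
    | head h _ ih =>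
      cases h with
      | inc => exact ⟨_, rfl, ih⟩
      | dec => exact ⟨_, .inl rfl, ih⟩
      | skip => exact ⟨_, .inr ⟨trivial, rfl⟩, ih⟩
      | zero _ _ _ h => exact ⟨_, ⟨h, rfl⟩, ih⟩
      | sil _ h =>
        cases h with
        | mv => exact let ⟨w, a, _, b, c⟩ := ih; ⟨_, ⟨w, a.imp_right fun a => ⟨a.1, a.2⟩, b⟩, c⟩
        | seq => exact let ⟨w, a, _, b, c⟩ := ih; ⟨_, ⟨w, a, b⟩, c⟩
        | out => exact ⟨_, .refl, ih⟩
        | go => exact let ⟨w, a, _, b, c⟩ := ih; ⟨_, .head a b, c⟩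
  exact ⟨fun h => let ⟨_, a, b⟩ := k2 _ h; b ▸ a, k1 _ _ _ _⟩

theorem ctl (p : Pr) : ∃ (S : Set (List Pr)) (C : Set R), S.Finite ∧ C.Finite ∧ [p] ∈ S ∧
    (∀ k ∈ S, ∀ k', Sil k k' → k' ∈ S) ∧ (∀ x k, x :: k ∈ S → k ∈ S) ∧
    ∀ c k, .inc c :: k ∈ S → c ∈ C := by
  have : ∀ k, ∃ S : Set (List Pr), S.Finite ∧ p :: k ∈ S ∧ ∀ s ∈ S, ∀ s',
      (Sil s s' ∨ ∃ x, s = x :: s') → s' ∈ S ∨ s' = k := by
    induction p with
    | inc | dec | zero =>
      exact fun k => ⟨_, Set.finite_singleton _, rfl, by rintro _ rfl _ (⟨⟨⟩⟩ | ⟨_, ⟨⟩⟩); simp⟩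
    | mv c d =>
      refine fun k => ⟨{_, .dec c :: .inc d :: k, .inc d :: k}, Set.toFinite _, .inl rfl, ?_⟩
      rintro _ (rfl | rfl | rfl) _ (⟨⟨⟩⟩ | ⟨_, ⟨⟩⟩) <;> simp
    | seq p q ih ih' =>
      intro k
      obtain ⟨S, s1, s2, s3⟩ := ih (q :: k)
      obtain ⟨S', t1, t2, t3⟩ := ih' k
      refine ⟨insert _ (S ∪ S'), (s1.union t1).insert _, .inl rfl, ?_⟩
      rintro s (rfl | h | h) s' q
      · rcases q with ⟨⟨⟩⟩ | ⟨_, ⟨⟩⟩ <;> simp [s2]
      · rcases s3 s h s' q with h | rfl <;> simp [*]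
      · rcases t3 s h s' q with h | rfl <;> simp [*]
    | star p ih =>
      intro k
      obtain ⟨S, s1, s2, s3⟩ := ih (.star p :: k)
      refine ⟨insert _ S, s1.insert _, .inl rfl, ?_⟩
      rintro s (rfl | h) s' q
      · rcases q with ⟨⟨⟩⟩ | ⟨_, ⟨⟩⟩ <;> simp [s2]
      · rcases s3 s h s' q with h | rfl <;> simp [*]
  obtain ⟨S, s1, s2, s3⟩ := this []
  refine ⟨insert [] S, {c | ∃ k, .inc c :: k ∈ S}, s1.insert _, (s1.image fun k => match k with
    | .inc c :: _ => c | _ => B).subset fun c ⟨k, h⟩ => ⟨_, h, rfl⟩, .inr s2, ?_, ?_, ?_⟩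
  · rintro k (rfl | h) k' q
    · cases q
    · exact (s3 k h k' (.inl q)).symm
  · rintro x k (⟨⟨⟩⟩ | h)
    exact (s3 _ h k (.inr ⟨x, rfl⟩)).symm
  · rintro c k (⟨⟨⟩⟩ | h)
    exact ⟨k, h⟩

inductive Sy : Type
  | ctl (k : List Pr) (b : Bool) | tok (c : R) | mrk | trm (c : R)
  deriving Countable

instance : Infinite Sy := .of_injective Sy.trm fun _ _ => Sy.trm.inj

attribute [local irreducible] Primrec Computable

theorem diag {σ C : Type} [Primcodable σ] [DecidableEq σ] [Primcodable C] (nx : C → List σ → List (List σ))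
    (st al : C → List σ) (h1 : Primrec fun x : C × List σ => nx x.1 x.2) (h2 : Primrec st)
    (h3 : Primrec al) (α β γ : σ) : ∃ f : ℕ → ℕ, Primrec f ∧ ∀ c, (∀ u, ∀ v ∈ nx c u,
      u.length ≤ v.length ∧ ∀ a ∈ v, a ∈ al c) → ∃ n, n ≠ 0 ∧ (f n = 0 ↔ ¬ ∃ w,
        ReflTransGen (fun u v => v ∈ nx c u) (st c) w ∧ w.length = 3 * n ∧
        w.count α = n ∧ w.count β = n ∧ w.count γ = n) := by
  let ws : C → ℕ → List (List σ) := fun c m =>
    (fun W => [] :: (al c).flatMap fun a => W.map fun w => a :: w)^[m] [[]]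
  let g : C → ℕ → List (List σ) → List (List σ) := fun c m S =>
    S ++ (S.flatMap fun u => nx c u).filter fun v => v.length ≤ m
  let D : C → ℕ → Prop := fun c n => ∃ w ∈ (g c (3 * n))^[(ws c (3 * n)).length + 1] [st c],
    w.length = 3 * n ∧ w.countP (fun a => a = α) = n ∧ w.countP (fun a => a = β) = n ∧
      w.countP (fun a => a = γ) = n
  refine ⟨fun n => ((Encodable.decode (α := C) (n - 1)).map fun c => (cd (D c n)).toNat).getD 0,
    by simp only [D, g, ws]; fun_prop, fun c h => ⟨Encodable.encode c + 1, by simp, ?_⟩⟩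
  simp only [Nat.add_sub_cancel, Encodable.encodek, Option.map_some, Option.getD_some]
  generalize Encodable.encode c + 1 = n
  have e : ∀ p, (cd p).toNat = 0 ↔ ¬ p := fun p => by
    rw [← not_congr (cd_true (p := p))]; cases cd p <;> simp
  have e' : ∀ (w : List σ) x, w.countP (fun a => a = x) = w.count x := fun _ _ => by
    rw [List.count]; congr
  simp only [e, D, e']
  refine not_congr (exists_congr fun w => and_congr_left fun q => ?_)
  have k1 : ∀ m (w : List σ), w.length ≤ m → (∀ a ∈ w, a ∈ al c) → w ∈ ws c m := fun m => by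
    induction m with
    | zero => simp +contextual [ws]
    | succ m ih =>
      rintro (_ | ⟨a, w⟩) q1 q2 <;> simp only [ws, iterate_succ_apply'] <;> simp
      exact ⟨q2 a (by simp), ih w (by simpa using q1) fun b l => q2 b (by simp [l])⟩
  generalize 3 * n = m at q
  let A : ℕ → List (List σ) := fun j => (g c m)^[j] [st c]
  have a0 : ∀ j v, v ∈ A (j + 1) ↔ v ∈ A j ∨ (∃ u ∈ A j, v ∈ nx c u) ∧ v.length ≤ m := fun j v => by
    simp [A, iterate_succ_apply', g]
  have a1 : ∀ j, ∀ v ∈ A j, ReflTransGen (fun u v => v ∈ nx c u) (st c) v ∧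
      v ∈ st c :: ws c m := fun j => by
    induction j with
    | zero => simp [A, ReflTransGen.refl]
    | succ j ih =>
      intro v l
      rcases (a0 j v).1 l with l | ⟨⟨u, l, l'⟩, l''⟩
      exacts [ih v l, ⟨(ih u l).1.tail l', .tail _ (k1 _ _ l'' (h u v l').2)⟩]
  have a2 : ∀ j, A (j + 1) ⊆ A j ∨ j < (A j).toFinset.card := fun j => by
    induction j with
    | zero => simp [A]
    | succ j ih =>
      by_cases c' : A (j + 1) ⊆ A j
      · exact .inl fun v l => (a0 _ v).2 (((a0 _ v).1 l).imp (@c' v)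
          fun ⟨⟨u, l, l'⟩, l''⟩ => ⟨⟨u, c' l, l'⟩, l''⟩)
      · exact .inr ((Nat.succ_le_of_lt (ih.resolve_left c')).trans_lt (Finset.card_lt_card
          ⟨fun v l => by simpa using (a0 j v).2 (.inl (by simpa using l)),
            fun l => c' fun v l' => by simpa using l (List.mem_toFinset.2 l')⟩))
  have a3 := (a2 ((ws c m).length + 1)).resolve_right (not_lt.2 ((Finset.card_le_card
    fun v l => List.mem_toFinset.2 (a1 _ v (List.mem_toFinset.1 l)).2).trans
      (List.toFinset_card_le _)))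
  refine ⟨fun l => (a1 _ w l).1, fun l => ?_⟩
  replace q := q.1.le
  induction l with
  | refl =>
    generalize (ws c m).length + 1 = j
    induction j with
    | zero => simp
    | succ j ih => exact (a0 j _).2 (.inl ih)
  | tail _ l ih => exact a3 ((a0 _ _).2 (.inr ⟨⟨_, ih ((h _ _ l).1.trans q), l⟩, q⟩))

theorem ms {w : List Sy} {n : ℕ} {a b c : R} (h1 : a ≠ b) (h2 : a ≠ c) (h3 : b ≠ c)
    [DecidableEq Sy] : (w.length = 3 * n ∧ w.count (.trm a) = n ∧ w.count (.trm b) = n ∧
      w.count (.trm c) = n) ↔ (w : Multiset Sy) = Multiset.map .trm (n • {a} + n • {b} + n • {c}) := by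
  simp only [← Multiset.coe_count, ← Multiset.coe_card]
  generalize (w : Multiset Sy) = u
  refine ⟨fun ⟨k0, k1, k2, k3⟩ => (Multiset.eq_of_le_of_card_le (Multiset.le_iff_count.2 fun x => ?_)
    (by simp; omega)).symm, by rintro rfl; simp [*, h1.symm, h2.symm, h3.symm, Multiset.map_nsmul]; omega⟩
  simp only [Multiset.map_add, Multiset.map_nsmul, Multiset.map_singleton, Multiset.count_add,
    Multiset.count_nsmul, Multiset.count_singleton]
  split_ifs <;> simp_all

end Pool.Agent.H.MP_4c145a_lc
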